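import Pool.Agent.U234.GS.Seq

/-!
# Gyárfás–Sumner for graphs with locally robust representations
-/

set_option autoImplicit false

namespace Pool.Agent.U234.GS

open Pool.Agent.TH253.GS Pool.Agent.N471.ST

/-- A kernel on `V`: vectors `p u` of norm at most `1` of a real normed space `X` and functionals
`q v` of norm at most `1`. The unit ball of `X` is round at the scale `δ / 2`: the midpoint of two
of its points with distance at least `δ / 2` has norm at most `1 - κ / 2`. The dimension of `X` is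
arbitrary, finite or infinite. -/
structure Kernel (V : Type) (δ κ : ℝ) where
  X : Type
  [grp : NormedAddCommGroup X]
  [spc : NormedSpace ℝ X]
  round : ∀ x y : X, ‖x‖ ≤ 1 → ‖y‖ ≤ 1 → δ / 2 ≤ ‖x - y‖ → ‖x + y‖ ≤ 2 - κ
  p : V → X
  q : V → (X →L[ℝ] ℝ)
  norm_p : ∀ v, ‖p v‖ ≤ 1
  norm_q : ∀ v, ‖q v‖ ≤ 1

attribute [instance] Kernel.grp Kernel.spc

/-- the value of the kernel -/
def Kernel.val {V : Type} {δ κ : ℝ} (ρ : Kernel V δ κ) (u v : V) : ℝ := ρ.q v (ρ.p u)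

/-- A matrix of rank at most `r` over a field. -/
structure LowRank (V : Type) [Fintype V] (r : ℕ) where
  K : Type
  [fld : Field K]
  M : Matrix V V K
  rank_le : M.rank ≤ r

attribute [instance] LowRank.fld

/-- the `(u, v)` entry is zero -/
def LowRank.Zero {V : Type} [Fintype V] {r : ℕ} (Z : LowRank V r) (u v : V) : Prop := Z.M u v = 0

lemma Kernel.abs_val {V : Type} {δ κ : ℝ} (ρ : Kernel V δ κ) (u v : V) : |ρ.val u v| ≤ 1 := by
  have h1 := (ρ.q v).le_opNorm (ρ.p u)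
  rw [Real.norm_eq_abs] at h1
  have h2 : ‖ρ.q v‖ * ‖ρ.p u‖ ≤ 1 * 1 :=
    mul_le_mul (ρ.norm_q v) (ρ.norm_p u) (norm_nonneg _) zero_le_one
  exact h1.trans (by linarith)

/-- **Locally robust representations.** -/
theorem main (s r s' : ℕ) (δ κ : ℝ) (hδ : 0 < δ) (hκ : 0 < κ) :
    ∃ A d : ℕ, ∀ (m : ℕ) (F : SimpleGraph (Fin m)), F.IsAcyclic →
    ∀ (V : Type) [Fintype V] (G P : SimpleGraph V) (c : ℕ), P.Colorable c →
      (∀ x y, G.Adj x y → ∃ (Z : Fin s → LowRank V r) (ρ : Fin s' → Kernel V δ κ),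
        ∀ u v u' v', G.Adj y u → G.Adj x v → u ≠ v → ¬ P.Adj u v →
          G.Adj y u' → G.Adj x v' → u' ≠ v' → ¬ P.Adj u' v' →
          (∀ t, (Z t).Zero u v ↔ (Z t).Zero u' v') →
          (∀ t, |(ρ t).val u v - (ρ t).val u' v'| < δ) → (G.Adj u v ↔ G.Adj u' v')) →
      ¬ Nonempty (F ↪g G) →
      G.chromaticNumber ≤ (c * (A * (m + G.cliqueNum) ^ d) : ℕ) := by
  classical
  have hη : 0 < δ / 2 := by linarith
  obtain ⟨N₀, hN₀⟩ := no_margin (δ / 2) κ hη hκ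
  obtain ⟨N, hN⟩ := seq_main s s' (r + 2) N₀ δ hδ
  obtain ⟨A, d, hf⟩ := main_classes_poly (N + 1)
  refine ⟨A, d, fun m F hF V _ G P c hP hloc hFG => ?_⟩
  obtain ⟨col⟩ := hP
  refine hf m F hF V G c col (fun i => ?_) hFG
  rintro ⟨a, b, hab⟩
  have hadj : ∀ j l, G.Adj (a j).1 (b l).1 ↔ j ≤ l := hab
  obtain ⟨Z, ρ, hA⟩ := hloc (a 0).1 (b (Fin.last N)).1 ((hadj _ _).2 (Fin.zero_le _))
  have hgap : ∀ t, NoGap (ρ t).val (δ / 2) N₀ := by
    intro t a' b' c' h1 h2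
    exact hN₀ (ρ t).X (ρ t).round (fun i => (ρ t).p (a' i)) (fun j => (ρ t).q (b' j)) c'
      (fun i => (ρ t).norm_p _) (fun j => (ρ t).norm_q _) h1 h2
  have hgap' : ∀ t, NoGap (fun u v => - (ρ t).val u v) (δ / 2) N₀ := by
    intro t a' b' c' h1 h2
    refine hN₀ (ρ t).X (ρ t).round (fun i => - (ρ t).p (a' i)) (fun j => (ρ t).q (b' j)) c'
      (fun i => by rw [norm_neg]; exact (ρ t).norm_p _) (fun j => (ρ t).norm_q _) ?_ ?_
    · intro i j hij
      rw [map_neg]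
      exact h1 i j hij
    · intro i j hij
      rw [map_neg]
      exact h2 i j hij
  have hR : ∀ t, ¬ HG (fun u v => (Z t).Zero u v) (r + 2) := fun t =>
    zero_stable (Z t).M r (Z t).rank_le
  have hcol : ∀ j l : Fin (N + 1), ¬ P.Adj (a j).1 (b l).1 := fun j l h =>
    col.valid h ((a j).2.trans (b l).2.symm)
  obtain ⟨i, j, i', j', hij, hij', hne, hpat, hker⟩ := hN V (fun t => (Z t).Zero)
    (fun t => (ρ t).val) (fun j => (a j.castSucc).1) (fun j => (b j.castSucc).1) hR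
    (fun t u v => (ρ t).abs_val u v) hgap hgap' (fun i j hij h => by
      have h1 := (hadj i.castSucc j.castSucc).2 (Fin.castSucc_le_castSucc_iff.2 hij)
      have h2 : (a i.castSucc).1 = (b j.castSucc).1 := h
      rw [h2] at h1
      exact G.irrefl h1)
  have hya : ∀ l : Fin (N + 1), G.Adj (b (Fin.last N)).1 (a l).1 := fun l =>
    ((hadj _ _).2 (Fin.le_last _)).symm
  have hxb : ∀ l : Fin (N + 1), G.Adj (a 0).1 (b l).1 := fun l => (hadj _ _).2 (Fin.zero_le _)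
  have e1 := (hadj i.castSucc j.castSucc).2 (Fin.castSucc_le_castSucc_iff.2 hij)
  have e2 := (hA _ _ _ _ (hya i.castSucc) (hxb j.castSucc) e1.ne (hcol _ _)
    (hya i'.castSucc) (hxb j'.castSucc) hne (hcol _ _) hpat hker).1 e1
  have e3 := (hadj i'.castSucc j'.castSucc).1 e2
  have e4 : i' ≤ j' := Fin.castSucc_le_castSucc_iff.1 e3
  exact absurd hij' (not_lt.2 e4)

/-- **Uniformly convex spaces.** -/
theorem main_uniform (X : Type) [NormedAddCommGroup X] [NormedSpace ℝ X] [UniformConvexSpace X]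
    (s r s' : ℕ) (δ : ℝ) (hδ : 0 < δ) :
    ∃ A d : ℕ, ∀ (m : ℕ) (F : SimpleGraph (Fin m)), F.IsAcyclic →
    ∀ (V : Type) [Fintype V] (G P : SimpleGraph V) (c : ℕ), P.Colorable c →
      (∀ x y, G.Adj x y → ∃ (Z : Fin s → LowRank V r) (p : Fin s' → V → X)
        (q : Fin s' → V → (X →L[ℝ] ℝ)), (∀ t v, ‖p t v‖ ≤ 1 ∧ ‖q t v‖ ≤ 1) ∧
        ∀ u v u' v', G.Adj y u → G.Adj x v → u ≠ v → ¬ P.Adj u v →
          G.Adj y u' → G.Adj x v' → u' ≠ v' → ¬ P.Adj u' v' →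
          (∀ t, (Z t).Zero u v ↔ (Z t).Zero u' v') →
          (∀ t, |q t v (p t u) - q t v' (p t u')| < δ) → (G.Adj u v ↔ G.Adj u' v')) →
      ¬ Nonempty (F ↪g G) →
      G.chromaticNumber ≤ (c * (A * (m + G.cliqueNum) ^ d) : ℕ) := by
  obtain ⟨κ, hκ, hround⟩ := exists_forall_closed_ball_dist_add_le_two_sub X
    (show 0 < δ / 2 by linarith)
  obtain ⟨A, d, h⟩ := main s r s' δ κ hδ hκ
  refine ⟨A, d, fun m F hF V _ G P c hP hloc hFG => h m F hF V G P c hP ?_ hFG⟩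
  intro x y hxy
  obtain ⟨Z, p, q, hn, hA⟩ := hloc x y hxy
  exact ⟨Z, fun t =>
    { X := X
      round := fun x y hx hy hxy => hround hx hy hxy
      p := p t
      q := q t
      norm_p := fun v => (hn t v).1
      norm_q := fun v => (hn t v).2 }, hA⟩

/-- **Hilbert spaces, with a margin.** -/
theorem main_margin (K : ℝ) (hK : 0 < K) :
    ∃ A d : ℕ, ∀ (m : ℕ) (F : SimpleGraph (Fin m)), F.IsAcyclic →
    ∀ (V : Type) [Fintype V] (G P : SimpleGraph V) (c : ℕ), P.Colorable c →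
      (∀ x y, G.Adj x y → ∃ (H : Type) (_ : NormedAddCommGroup H) (_ : InnerProductSpace ℝ H)
        (p q : V → H) (θ : ℝ), (∀ u v, ‖p u‖ * ‖q v‖ ≤ K) ∧
        ∀ u v, G.Adj y u → G.Adj x v → u ≠ v → ¬ P.Adj u v →
          (G.Adj u v → θ + 1 ≤ inner ℝ (p u) (q v)) ∧ (¬ G.Adj u v → inner ℝ (p u) (q v) ≤ θ)) →
      ¬ Nonempty (F ↪g G) →
      G.chromaticNumber ≤ (c * (A * (m + G.cliqueNum) ^ d) : ℕ) := by
  classical
  have hδ : 0 < 1 / K := by positivity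
  obtain ⟨A, d, h⟩ := main 0 0 1 (1 / K) ((1 / K / 2) ^ 2 / 4) hδ (by positivity)
  refine ⟨A, d, fun m F hF V _ G P c hP hloc hFG => h m F hF V G P c hP ?_ hFG⟩
  intro x y hxy
  obtain ⟨H, _, _, p, q, θ, hn, hA⟩ := hloc x y hxy
  -- bounds for the norms
  obtain ⟨S, hS0, hS⟩ : ∃ S : ℝ, 0 < S ∧ (∀ u, ‖p u‖ ≤ S) ∧ ∀ v, ‖q v‖ ≤ K / S := by
    by_cases hp : ∀ u, p u = 0
    · refine ⟨K / (1 + ∑ v, ‖q v‖), ?_, ?_, ?_⟩
      · have : 0 ≤ ∑ v, ‖q v‖ := Finset.sum_nonneg fun _ _ => norm_nonneg _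
        positivity
      · intro u
        have : 0 ≤ ∑ v, ‖q v‖ := Finset.sum_nonneg fun _ _ => norm_nonneg _
        rw [hp u, norm_zero]
        positivity
      · intro v
        have h0 : 0 ≤ ∑ v, ‖q v‖ := Finset.sum_nonneg fun _ _ => norm_nonneg _
        have h1 : ‖q v‖ ≤ ∑ v, ‖q v‖ :=
          Finset.single_le_sum (f := fun v => ‖q v‖) (fun _ _ => norm_nonneg _) (Finset.mem_univ v)
        rw [div_div_cancel₀ hK.ne']
        linarith
    · push Not at hp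
      obtain ⟨u₀, hu₀⟩ := hp
      obtain ⟨u₁, -, hmax⟩ := Finset.exists_max_image (Finset.univ : Finset V) (fun u => ‖p u‖)
        ⟨u₀, Finset.mem_univ _⟩
      have hpos : 0 < ‖p u₁‖ := lt_of_lt_of_le (norm_pos_iff.2 hu₀) (hmax u₀ (Finset.mem_univ _))
      refine ⟨‖p u₁‖, hpos, fun u => hmax u (Finset.mem_univ _), fun v => ?_⟩
      rw [le_div_iff₀ hpos, mul_comm]
      exact hn u₁ v
  obtain ⟨hSp, hSq⟩ := hS
  let ρ : Kernel V (1 / K) ((1 / K / 2) ^ 2 / 4) :=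
    { X := H
      round := round_hilbert H (by positivity)
      p := fun u => S⁻¹ • p u
      q := fun v => (S / K) • innerSL ℝ (q v)
      norm_p := fun u => by
        rw [norm_smul, Real.norm_eq_abs, abs_of_pos (inv_pos.2 hS0), inv_mul_le_iff₀ hS0, mul_one]
        exact hSp u
      norm_q := fun v => by
        rw [norm_smul, Real.norm_eq_abs, abs_of_pos (by positivity), innerSL_apply_norm]
        have h1 := hSq v
        rw [le_div_iff₀ hS0] at h1
        rw [div_mul_eq_mul_div, div_le_one hK]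
        linarith }
  have hval : ∀ u v, ρ.val u v = inner ℝ (p u) (q v) / K := by
    intro u v
    show ((S / K) • innerSL ℝ (q v)) (S⁻¹ • p u) = _
    rw [map_smul, smul_apply, innerSL_apply_apply, smul_eq_mul, smul_eq_mul,
      real_inner_comm]
    field_simp
  refine ⟨fun t => t.elim0, fun _ => ρ, ?_⟩
  intro u v u' v' h1 h2 h3 h4 h1' h2' h3' h4' _ hk
  have hk0 := hk 0
  rw [hval, hval, ← sub_div, abs_div, abs_of_pos hK, div_lt_div_iff_of_pos_right hK] at hk0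
  have hlt := abs_lt.1 hk0
  obtain ⟨g1, g2⟩ := hA u v h1 h2 h3 h4
  obtain ⟨g1', g2'⟩ := hA u' v' h1' h2' h3' h4'
  constructor
  · intro h
    by_contra h'
    have := g1 h
    have := g2' h'
    linarith
  · intro h
    by_contra h'
    have := g1' h
    have := g2 h'
    linarith

/-- **Cayley graphs.** -/
theorem main_cayley (K : ℝ) (hK : 0 < K) :
    ∃ A d : ℕ, ∀ (m : ℕ) (F : SimpleGraph (Fin m)), F.IsAcyclic →
    ∀ (Γ : Type) [Group Γ] [Fintype Γ] (G : SimpleGraph Γ) (S : Set Γ),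
      (∀ g h, G.Adj g h ↔ g⁻¹ * h ∈ S) →
      (∃ (H : Type) (_ : NormedAddCommGroup H) (_ : InnerProductSpace ℝ H)
        (π : Γ →* (H ≃ₗᵢ[ℝ] H)) (ξ ζ : H), ‖ξ‖ * ‖ζ‖ ≤ K ∧
        ∀ g, g ≠ 1 → (g ∈ S → 1 ≤ inner ℝ (π g ξ) ζ) ∧ (g ∉ S → inner ℝ (π g ξ) ζ ≤ 0)) →
      ¬ Nonempty (F ↪g G) →
      G.chromaticNumber ≤ (A * (m + G.cliqueNum) ^ d : ℕ) := by
  classical
  obtain ⟨A, d, h⟩ := main_margin K hK
  refine ⟨A, d, fun m F hF Γ _ _ G S hS hrep hFG => ?_⟩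
  obtain ⟨H, _, _, π, ξ, ζ, hn, hA⟩ := hrep
  have h1 := h m F hF Γ G ⊥ 1 ⟨SimpleGraph.Coloring.mk (fun _ => 0) (fun {_ _} h => by simp at h)⟩
    (fun x y _ => ⟨H, inferInstance, inferInstance, fun u => π u ζ, fun v => π v ξ, 0,
      fun u v => by
        show ‖π u ζ‖ * ‖π v ξ‖ ≤ K
        rw [LinearIsometryEquiv.norm_map, LinearIsometryEquiv.norm_map, mul_comm]
        exact hn,
      fun u v _ _ huv _ => by
        have e : inner ℝ (π u ζ) (π v ξ) = inner ℝ (π (u⁻¹ * v) ξ) ζ := by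
          have e1 : π v ξ = π u (π (u⁻¹ * v) ξ) := by
            show π v ξ = (π u * π (u⁻¹ * v)) ξ
            rw [← map_mul, mul_inv_cancel_left]
          rw [e1, LinearIsometryEquiv.inner_map_map, real_inner_comm]
        have hne : u⁻¹ * v ≠ 1 := fun h => huv (inv_mul_eq_one.1 h)
        obtain ⟨g1, g2⟩ := hA _ hne
        rw [e, hS]
        exact ⟨fun h => by linarith [g1 h], g2⟩⟩) hFG
  rwa [one_mul] at h1

end Pool.Agent.U234.GS
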