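import Mathlib

/-!
# Half-graphs and bounded kernels on round spaces

If vectors `p_i` of norm at most one and functionals `q_j` of norm at most one satisfy
`q_j(p_i) ≥ c` for `i ≤ j` and `q_j(p_i) ≤ c - η` for `i > j`, then the number of indices is bounded in
terms of `η` and the roundness of the unit ball at the scale `η`.
-/

set_option autoImplicit false

namespace Pool.Agent.U234.GS

/-- The unit ball of `X` is round at the scale `ε`, with gain `κ`. -/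
def Round (X : Type*) [NormedAddCommGroup X] (ε κ : ℝ) : Prop :=
  ∀ x y : X, ‖x‖ ≤ 1 → ‖y‖ ≤ 1 → ε ≤ ‖x - y‖ → ‖x + y‖ ≤ 2 - κ

lemma round_hilbert (X : Type*) [NormedAddCommGroup X] [InnerProductSpace ℝ X] {ε : ℝ}
    (hε : 0 ≤ ε) : Round X ε (ε ^ 2 / 4) := by
  intro x y hx hy hxy
  have h1 := parallelogram_law_with_norm ℝ x y
  have h2 : ‖x + y‖ ^ 2 ≤ 4 - ε ^ 2 := by nlinarith [norm_nonneg x, norm_nonneg y]
  have h3 : ‖x - y‖ ≤ 2 := by linarith [norm_sub_le x y]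
  have h4 : 0 ≤ 2 - ε ^ 2 / 4 := by nlinarith
  apply le_of_sq_le_sq _ h4
  nlinarith [sq_nonneg (ε ^ 2 / 4)]

variable {X : Type*} [NormedAddCommGroup X] [NormedSpace ℝ X]

lemma Round.scale {ε κ : ℝ} (h : Round X ε κ) (hε : 0 < ε) (hκ : 0 ≤ κ) {r : ℝ} (hr : r ≤ 1)
    {x y : X} (hx : ‖x‖ ≤ r) (hy : ‖y‖ ≤ r) (hxy : ε ≤ ‖x - y‖) :
    ‖x + y‖ ≤ 2 * r - ε / 2 * κ := by
  have h1 : ε ≤ 2 * r := by linarith [norm_sub_le x y]
  have hr0 : 0 < r := by linarith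
  have hn : ∀ z : X, ‖r⁻¹ • z‖ = r⁻¹ * ‖z‖ := fun z => by
    rw [norm_smul, Real.norm_eq_abs, abs_of_pos (inv_pos.2 hr0)]
  have hx' : ‖r⁻¹ • x‖ ≤ 1 := by
    rw [hn, inv_mul_le_iff₀ hr0, mul_one]
    exact hx
  have hy' : ‖r⁻¹ • y‖ ≤ 1 := by
    rw [hn, inv_mul_le_iff₀ hr0, mul_one]
    exact hy
  have h2 : ε ≤ ‖r⁻¹ • x - r⁻¹ • y‖ := by
    rw [← smul_sub, hn]
    have h3 : 1 ≤ r⁻¹ := by
      rw [one_le_inv₀ hr0]
      exact hr
    nlinarith [norm_nonneg (x - y)]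
  have h3 := h _ _ hx' hy' h2
  rw [← smul_add, hn, inv_mul_le_iff₀ hr0] at h3
  nlinarith

lemma exists_small {η κ : ℝ} (h : Round X η κ) (hη : 0 < η) (hκ : 0 ≤ κ) (p : ℕ → X)
    (q : ℕ → X →L[ℝ] ℝ) (c : ℝ) (N : ℕ) (hp : ∀ i < N, ‖p i‖ ≤ 1) (hq : ∀ j < N, ‖q j‖ ≤ 1)
    (h1 : ∀ i j, i ≤ j → j < N → c ≤ q j (p i))
    (h2 : ∀ i j, j < i → i < N → q j (p i) ≤ c - η) :
    ∀ k a : ℕ, a + 2 ^ k ≤ N → ∃ v ∈ convexHull ℝ (p '' Set.Ico a (a + 2 ^ k)),
      ‖v‖ ≤ 1 - k * (η * κ / 4) := by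
  intro k
  induction k with
  | zero =>
    intro a ha
    refine ⟨p a, subset_convexHull ℝ _ ⟨a, ?_, rfl⟩, ?_⟩
    · rw [Set.mem_Ico]
      simp
    · rw [pow_zero] at ha
      simpa using hp a (by omega)
  | succ k ih =>
    intro a ha
    have hpow : 2 ^ (k + 1) = 2 ^ k + 2 ^ k := by ring
    have hpos : 0 < 2 ^ k := by positivity
    obtain ⟨v₁, hv₁, hn₁⟩ := ih a (by omega)
    obtain ⟨v₂, hv₂, hn₂⟩ := ih (a + 2 ^ k) (by omega)
    set j := a + 2 ^ k - 1 with hj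
    have hjN : j < N := by omega
    have e1 : c ≤ q j v₁ := by
      have hconv : Convex ℝ {x : X | c ≤ q j x} := convex_halfSpace_ge (q j).isLinear c
      refine convexHull_min ?_ hconv hv₁
      rintro _ ⟨i, hi, rfl⟩
      rw [Set.mem_Ico] at hi
      exact h1 i j (by omega) hjN
    have e2 : q j v₂ ≤ c - η := by
      have hconv : Convex ℝ {x : X | q j x ≤ c - η} := convex_halfSpace_le (q j).isLinear (c - η)
      refine convexHull_min ?_ hconv hv₂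
      rintro _ ⟨i, hi, rfl⟩
      rw [Set.mem_Ico] at hi
      exact h2 i j (by omega) (by omega)
    have e3 : η ≤ ‖v₁ - v₂‖ := by
      have h3 : η ≤ q j (v₁ - v₂) := by rw [map_sub]; linarith
      have h4 := (q j).le_opNorm (v₁ - v₂)
      rw [Real.norm_eq_abs] at h4
      have h5 := le_abs_self (q j (v₁ - v₂))
      nlinarith [hq j hjN, norm_nonneg (v₁ - v₂)]
    have hr : (1 : ℝ) - k * (η * κ / 4) ≤ 1 := by
      have : (0 : ℝ) ≤ k * (η * κ / 4) := by positivity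
      linarith
    have e4 := h.scale hη hκ hr hn₁ hn₂ e3
    refine ⟨(1 / 2 : ℝ) • v₁ + (1 / 2 : ℝ) • v₂, ?_, ?_⟩
    · have m1 : v₁ ∈ convexHull ℝ (p '' Set.Ico a (a + 2 ^ (k + 1))) := by
        refine convexHull_mono (Set.image_mono ?_) hv₁
        intro i hi
        rw [Set.mem_Ico] at hi ⊢
        omega
      have m2 : v₂ ∈ convexHull ℝ (p '' Set.Ico a (a + 2 ^ (k + 1))) := by
        refine convexHull_mono (Set.image_mono ?_) hv₂
        intro i hi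
        rw [Set.mem_Ico] at hi ⊢
        omega
      exact convex_convexHull ℝ _ m1 m2 (by norm_num) (by norm_num) (by norm_num)
    · rw [← smul_add, norm_smul, Real.norm_eq_abs, abs_of_pos (by norm_num : (0 : ℝ) < 1 / 2)]
      push_cast
      linarith

/-- the bound -/
lemma no_margin (η κ : ℝ) (hη : 0 < η) (hκ : 0 < κ) : ∃ N : ℕ,
    ∀ (X : Type) [NormedAddCommGroup X] [NormedSpace ℝ X], Round X η κ →
      ∀ (p : Fin N → X) (q : Fin N → X →L[ℝ] ℝ) (c : ℝ), (∀ i, ‖p i‖ ≤ 1) → (∀ j, ‖q j‖ ≤ 1) →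
        (∀ i j, i ≤ j → c ≤ q j (p i)) → (∀ i j, j < i → q j (p i) ≤ c - η) → False := by
  obtain ⟨k, hk⟩ := exists_nat_gt (4 / (η * κ))
  refine ⟨2 ^ k, fun X _ _ h p q c hp hq h1 h2 => ?_⟩
  let p' : ℕ → X := fun i => if h : i < 2 ^ k then p ⟨i, h⟩ else 0
  let q' : ℕ → X →L[ℝ] ℝ := fun i => if h : i < 2 ^ k then q ⟨i, h⟩ else 0
  have ep : ∀ i (hi : i < 2 ^ k), p' i = p ⟨i, hi⟩ := fun i hi => dif_pos hi
  have eq' : ∀ i (hi : i < 2 ^ k), q' i = q ⟨i, hi⟩ := fun i hi => dif_pos hi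
  obtain ⟨v, -, hv⟩ := exists_small h hη hκ.le p' q' c (2 ^ k)
    (fun i hi => by rw [ep i hi]; exact hp _) (fun i hi => by rw [eq' i hi]; exact hq _)
    (fun i j hij hj => by
      rw [ep i (by omega), eq' j hj]
      exact h1 _ _ (by rw [Fin.le_def]; exact hij))
    (fun i j hij hi => by
      rw [ep i hi, eq' j (by omega)]
      exact h2 _ _ (by rw [Fin.lt_def]; exact hij)) k 0 (by omega)
  have h3 : 1 < k * (η * κ / 4) := by
    rw [div_lt_iff₀ (by positivity)] at hk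
    linarith
  linarith [norm_nonneg v]

end Pool.Agent.U234.GS
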