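import Pool.Agent.N471.ST.Final
import Pool.Agent.U234.GS.Round

/-!
# Half-graphs and robust functions of relations and kernels
-/

set_option autoImplicit false

namespace Pool.Agent.U234.GS

open Pool.Agent.TH253.GS

/-- no long sequences on which the kernel jumps by `η` at the diagonal -/
def NoGap {V : Type} (f : V → V → ℝ) (η : ℝ) (N : ℕ) : Prop :=
  ∀ (a b : Fin N → V) (c : ℝ), (∀ i j, i ≤ j → c ≤ f (a i) (b j)) →
    (∀ i j, j < i → f (a i) (b j) ≤ c - η) → False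

/-- the cell of a number of `[-1, 1]` -/
noncomputable def cell (η x : ℝ) (g : ℕ) : Fin (g + 1) := ⟨min ⌊(x + 1) / η⌋₊ g, by omega⟩

lemma cell_spec {η x : ℝ} (hη : 0 < η) (hx : |x| ≤ 1) {g : ℕ} (hg : 2 / η < g) :
    ((cell η x g : ℕ) : ℝ) * η - 1 ≤ x ∧ x < (((cell η x g : ℕ) : ℝ) + 1) * η - 1 := by
  have h1 := abs_le.1 hx
  have h2 : 0 ≤ (x + 1) / η := div_nonneg (by linarith) hη.le
  have h3 : (x + 1) / η ≤ 2 / η := by
    apply div_le_div_of_nonneg_right _ hη.le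
    linarith
  have h4 := Nat.floor_le h2
  have h5 := Nat.lt_floor_add_one ((x + 1) / η)
  have h6 : ⌊(x + 1) / η⌋₊ ≤ g := by
    have : ((⌊(x + 1) / η⌋₊ : ℕ) : ℝ) ≤ g := by linarith
    exact_mod_cast this
  have h7 : (cell η x g : ℕ) = ⌊(x + 1) / η⌋₊ := min_eq_left h6
  rw [h7]
  constructor
  · rw [le_div_iff₀ hη] at h4
    linarith
  · rw [div_lt_iff₀ hη] at h5
    linarith

/-- sequences -/
theorem seq_main (s s' n N₀ : ℕ) (δ : ℝ) (hδ : 0 < δ) : ∃ N : ℕ,
    ∀ (V : Type) (R : Fin s → V → V → Prop) (f : Fin s' → V → V → ℝ) (a b : Fin N → V),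
      (∀ t, ¬ HG (R t) n) → (∀ t u v, |f t u v| ≤ 1) →
      (∀ t, NoGap (f t) (δ / 2) N₀) → (∀ t, NoGap (fun u v => - f t u v) (δ / 2) N₀) →
      (∀ i j, i ≤ j → a i ≠ b j) →
      ∃ i j i' j', i ≤ j ∧ j' < i' ∧ a i' ≠ b j' ∧
        (∀ t, R t (a i) (b j) ↔ R t (a i') (b j')) ∧
        ∀ t, |f t (a i) (b j) - f t (a i') (b j')| < δ := by
  classical
  obtain ⟨g, hg⟩ := exists_nat_gt (2 / (δ / 2))
  have hη : 0 < δ / 2 := by linarith
  set M := max n N₀ with hM
  obtain ⟨N, hN⟩ := ramsey_pairs ((Fin s → Prop) × (Fin s → Prop) × (Fin s' → Fin (g + 1)) ×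
    (Fin s' → Fin (g + 1)) × Prop) (2 * M + 3)
  refine ⟨N, fun V R f a b hR hf hgap hgap' hne => ?_⟩
  obtain ⟨e, he, ⟨α, β, A, B, ε⟩, hγ⟩ := hN fun i j =>
    (fun t => R t (a i) (b j), fun t => R t (a j) (b i),
      fun t => cell (δ / 2) (f t (a i) (b j)) g, fun t => cell (δ / 2) (f t (a j) (b i)) g,
      a j = b i)
  have hc : ∀ i j, i < j → (∀ t, R t (a (e i)) (b (e j)) = α t) ∧
      (∀ t, R t (a (e j)) (b (e i)) = β t) ∧
      (∀ t, cell (δ / 2) (f t (a (e i)) (b (e j))) g = A t) ∧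
      (∀ t, cell (δ / 2) (f t (a (e j)) (b (e i))) g = B t) ∧ ((a (e j) = b (e i)) = ε) := by
    intro i j hij
    have h1 := hγ i j hij
    simp only [Prod.mk.injEq] at h1
    exact ⟨fun t => congrFun h1.1 t, fun t => congrFun h1.2.1 t, fun t => congrFun h1.2.2.1 t,
      fun t => congrFun h1.2.2.2.1 t, h1.2.2.2.2⟩
  let i0 : Fin (2 * M + 3) := ⟨0, by omega⟩
  let i1 : Fin (2 * M + 3) := ⟨1, by omega⟩
  let i2 : Fin (2 * M + 3) := ⟨2, by omega⟩
  have h01 : i0 < i1 := by simp [i0, i1]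
  have h12 : i1 < i2 := by simp [i1, i2, Fin.lt_def]
  have hε : ¬ ε := by
    intro h
    have e1 : a (e i1) = b (e i0) := by rw [(hc _ _ h01).2.2.2.2]; exact h
    have e2 : a (e i2) = b (e i1) := by rw [(hc _ _ h12).2.2.2.2]; exact h
    have e3 : a (e i2) = b (e i0) := by rw [(hc _ _ (h01.trans h12)).2.2.2.2]; exact h
    have e4 : a (e i1) = b (e i1) := by rw [e1, ← e3, e2]
    exact hne _ _ le_rfl e4
  have hne' : a (e i1) ≠ b (e i0) := by
    intro h
    rw [(hc _ _ h01).2.2.2.2] at h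
    exact hε h
  refine ⟨e i0, e i1, e i1, e i0, (he h01).le, he h01, hne', ?_, ?_⟩
  · -- the relations
    intro t
    rw [(hc _ _ h01).1 t, (hc _ _ h01).2.1 t]
    by_contra hno
    by_cases hα : α t
    · have hβ : ¬ β t := fun h => hno (iff_of_true hα h)
      apply hR t
      refine ⟨fun i => a (e ⟨2 * i.1, by omega⟩), fun j => b (e ⟨2 * j.1 + 1, by omega⟩),
        fun i j => ?_⟩
      rcases Nat.lt_or_ge (2 * i.1) (2 * j.1 + 1) with h | h
      · have h1 := (hc ⟨2 * i.1, by omega⟩ ⟨2 * j.1 + 1, by omega⟩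
          (by rw [Fin.lt_def]; exact h)).1 t
        rw [h1]
        exact iff_of_true hα (by rw [Fin.le_def]; omega)
      · have h1 := (hc ⟨2 * j.1 + 1, by omega⟩ ⟨2 * i.1, by omega⟩
          (by rw [Fin.lt_def]; show 2 * j.1 + 1 < 2 * i.1; omega)).2.1 t
        rw [h1]
        exact iff_of_false hβ (by rw [Fin.le_def]; omega)
    · have hβ : β t := by
        by_contra h
        exact hno (iff_of_false hα h)
      apply hR t
      refine ⟨fun i => a (e ⟨2 * (M - i.1) + 1, by omega⟩), fun j => b (e ⟨2 * (M - j.1), by omega⟩),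
        fun i j => ?_⟩
      have hi : i.1 < M := lt_of_lt_of_le i.2 (le_max_left _ _)
      have hj : j.1 < M := lt_of_lt_of_le j.2 (le_max_left _ _)
      rcases Nat.lt_or_ge (2 * (M - i.1) + 1) (2 * (M - j.1)) with h | h
      · have h1 := (hc ⟨2 * (M - i.1) + 1, by omega⟩ ⟨2 * (M - j.1), by omega⟩
          (by rw [Fin.lt_def]; exact h)).1 t
        rw [h1]
        exact iff_of_false hα (by rw [Fin.le_def]; omega)
      · have h1 := (hc ⟨2 * (M - j.1), by omega⟩ ⟨2 * (M - i.1) + 1, by omega⟩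
          (by rw [Fin.lt_def]; show 2 * (M - j.1) < 2 * (M - i.1) + 1; omega)).2.1 t
        rw [h1]
        exact iff_of_true hβ (by rw [Fin.le_def]; omega)
  · -- the kernels
    intro t
    by_contra hno
    push Not at hno
    have s1 := cell_spec hη (hf t (a (e i0)) (b (e i1))) hg
    have s2 := cell_spec hη (hf t (a (e i1)) (b (e i0))) hg
    rw [(hc _ _ h01).2.2.1 t] at s1
    rw [(hc _ _ h01).2.2.2.1 t] at s2
    have hup : ∀ i j, i < j → ((A t : ℕ) : ℝ) * (δ / 2) - 1 ≤ f t (a (e i)) (b (e j)) ∧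
        f t (a (e i)) (b (e j)) < (((A t : ℕ) : ℝ) + 1) * (δ / 2) - 1 := by
      intro i j hij
      have := cell_spec hη (hf t (a (e i)) (b (e j))) hg
      rwa [(hc _ _ hij).2.2.1 t] at this
    have hlo : ∀ i j, i < j → ((B t : ℕ) : ℝ) * (δ / 2) - 1 ≤ f t (a (e j)) (b (e i)) ∧
        f t (a (e j)) (b (e i)) < (((B t : ℕ) : ℝ) + 1) * (δ / 2) - 1 := by
      intro i j hij
      have := cell_spec hη (hf t (a (e j)) (b (e i))) hg
      rwa [(hc _ _ hij).2.2.2.1 t] at this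
    have hAB : ((B t : ℕ) + 2 ≤ (A t : ℕ)) ∨ ((A t : ℕ) + 2 ≤ (B t : ℕ)) := by
      by_contra hcon
      push Not at hcon
      obtain ⟨c1, c2⟩ := hcon
      have c1' : ((A t : ℕ) : ℝ) ≤ ((B t : ℕ) : ℝ) + 1 := by
        have : (A t : ℕ) ≤ (B t : ℕ) + 1 := by omega
        exact_mod_cast this
      have c2' : ((B t : ℕ) : ℝ) ≤ ((A t : ℕ) : ℝ) + 1 := by
        have : (B t : ℕ) ≤ (A t : ℕ) + 1 := by omega
        exact_mod_cast this
      rcases le_abs.1 hno with h | h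
      · nlinarith [s1.2, s2.1]
      · nlinarith [s1.1, s2.2]
    rcases hAB with h | h
    · have h' : ((B t : ℕ) : ℝ) + 2 ≤ ((A t : ℕ) : ℝ) := by exact_mod_cast h
      refine hgap t (fun i => a (e ⟨2 * i.1, ?_⟩)) (fun j => b (e ⟨2 * j.1 + 1, ?_⟩))
        (((A t : ℕ) : ℝ) * (δ / 2) - 1) (fun i j hij => ?_) (fun i j hij => ?_)
      · have := lt_of_lt_of_le i.2 (le_max_right n N₀)
        omega
      · have := lt_of_lt_of_le j.2 (le_max_right n N₀)
        omega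
      · rw [Fin.le_def] at hij
        exact (hup _ _ (by rw [Fin.lt_def]; show 2 * i.1 < 2 * j.1 + 1; omega)).1
      · rw [Fin.lt_def] at hij
        have h2 := (hlo ⟨2 * j.1 + 1, by omega⟩ ⟨2 * i.1, by omega⟩
          (by rw [Fin.lt_def]; show 2 * j.1 + 1 < 2 * i.1; omega)).2
        have h3 : (((B t : ℕ) : ℝ) + 1) * (δ / 2) ≤ (((A t : ℕ) : ℝ) - 1) * (δ / 2) :=
          mul_le_mul_of_nonneg_right (by linarith) hη.le
        show f t _ _ ≤ _
        linarith
    · have h' : ((A t : ℕ) : ℝ) + 2 ≤ ((B t : ℕ) : ℝ) := by exact_mod_cast h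
      refine hgap' t (fun i => a (e ⟨2 * i.1, ?_⟩)) (fun j => b (e ⟨2 * j.1 + 1, ?_⟩))
        (1 - (((A t : ℕ) : ℝ) + 1) * (δ / 2)) (fun i j hij => ?_) (fun i j hij => ?_)
      · have := lt_of_lt_of_le i.2 (le_max_right n N₀)
        omega
      · have := lt_of_lt_of_le j.2 (le_max_right n N₀)
        omega
      · rw [Fin.le_def] at hij
        have h2 := (hup ⟨2 * i.1, by omega⟩ ⟨2 * j.1 + 1, by omega⟩
          (by rw [Fin.lt_def]; show 2 * i.1 < 2 * j.1 + 1; omega)).2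
        show _ ≤ - f t _ _
        linarith
      · rw [Fin.lt_def] at hij
        have h2 := (hlo ⟨2 * j.1 + 1, by omega⟩ ⟨2 * i.1, by omega⟩
          (by rw [Fin.lt_def]; show 2 * j.1 + 1 < 2 * i.1; omega)).1
        have h3 : (((A t : ℕ) : ℝ) + 2) * (δ / 2) ≤ ((B t : ℕ) : ℝ) * (δ / 2) :=
          mul_le_mul_of_nonneg_right h' hη.le
        show - f t _ _ ≤ _
        linarith

end Pool.Agent.U234.GS
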